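import Mathlib

set_option autoImplicit false

namespace Pool.Agent.P.MP_75c46b_gt

open Set

/-- indicator (mod 2) of an edge coloured with the colours 1 and 2 -/
def edgeInd (s t : Fin 3) : ZMod 2 :=
  if (s = 1 ∧ t = 2) ∨ (s = 2 ∧ t = 1) then 1 else 0

lemma edgeInd_cell : ∀ a b c d : Fin 3,
    (¬ ∀ col : Fin 3, a = col ∨ b = col ∨ c = col ∨ d = col) →
    edgeInd c d - edgeInd a b = edgeInd b d - edgeInd a c := by
  decide

lemma edgeInd_ne_one : ∀ a b : Fin 3, a ≠ 1 → b ≠ 1 → edgeInd a b = 0 := by decide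

lemma edgeInd_ne_two : ∀ a b : Fin 3, a ≠ 2 → b ≠ 2 → edgeInd a b = 0 := by decide

/-- A Sperner type lemma on a rectangular grid. -/
theorem grid_sperner (n k : ℕ) (c : ℕ → ℕ → Fin 3) (hn : 1 ≤ n)
    (htop : ∀ i ≤ n, c i k = 0)
    (hleft : ∀ j ≤ k, c 0 j ≠ 1)
    (hright : ∀ j ≤ k, c n j ≠ 2)
    (hbot : ∀ i ≤ n, 1 ≤ i → c i 0 ≠ 2)
    (h00 : c 0 0 = 2) (h10 : c 1 0 = 1) :
    ∃ i < n, ∃ j < k, ∀ col : Fin 3,
      c i j = col ∨ c (i + 1) j = col ∨ c i (j + 1) = col ∨ c (i + 1) (j + 1) = col := by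
  by_contra hcon
  have hcell : ∀ i < n, ∀ j < k,
      edgeInd (c i (j + 1)) (c (i + 1) (j + 1)) - edgeInd (c i j) (c (i + 1) j)
        = edgeInd (c (i + 1) j) (c (i + 1) (j + 1)) - edgeInd (c i j) (c i (j + 1)) := by
    intro i hi j hj
    apply edgeInd_cell
    intro h
    exact hcon ⟨i, hi, j, hj, h⟩
  set N : ℕ → ZMod 2 := fun j => ∑ i ∈ Finset.range n, edgeInd (c i j) (c (i + 1) j) with hN
  have hstep : ∀ j < k, N (j + 1) = N j := by
    intro j hj
    have h1 : N (j + 1) - N j = ∑ i ∈ Finset.range n,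
        (edgeInd (c (i + 1) j) (c (i + 1) (j + 1)) - edgeInd (c i j) (c i (j + 1))) := by
      simp only [hN]
      rw [← Finset.sum_sub_distrib]
      apply Finset.sum_congr rfl
      intro i hi
      exact hcell i (Finset.mem_range.mp hi) j hj
    rw [Finset.sum_range_sub (fun i => edgeInd (c i j) (c i (j + 1)))] at h1
    rw [edgeInd_ne_two _ _ (hright j hj.le) (hright (j + 1) hj),
      edgeInd_ne_one _ _ (hleft j hj.le) (hleft (j + 1) hj)] at h1
    simpa [sub_eq_zero] using h1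
  have hconst : ∀ j ≤ k, N j = N 0 := by
    intro j hj
    induction j with
    | zero => rfl
    | succ j ih => rw [hstep j hj, ih (Nat.le_of_succ_le hj)]
  have hk : N k = 0 := by
    simp only [hN]
    apply Finset.sum_eq_zero
    intro i hi
    have hi' := Finset.mem_range.mp hi
    rw [htop i hi'.le, htop (i + 1) hi']
    decide
  have h0 : N 0 = 1 := by
    simp only [hN]
    obtain ⟨m, rfl⟩ : ∃ m, n = m + 1 := ⟨n - 1, by omega⟩
    rw [Finset.sum_range_succ', Finset.sum_eq_zero]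
    · rw [h00, zero_add, h10]; decide
    · intro i hi
      have hi' := Finset.mem_range.mp hi
      exact edgeInd_ne_two _ _ (hbot (i + 1) (by omega) (by omega))
        (hbot (i + 1 + 1) (by omega) (by omega))
  have := hconst k le_rfl
  rw [hk, h0] at this
  exact absurd this (by decide)

/-- Discrete mountain climbing: an approximate coincidence pair at distance about `a`. -/
theorem approx_pair {X : Type*} [PseudoMetricSpace X] (g : X → ℝ) (a ε η : ℝ)
    (hη : 0 ≤ η) (hε : 0 ≤ ε) (hεa : ε ≤ a)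
    (hg : ∀ u v : X, dist u v ≤ ε → |g u - g v| ≤ η)
    (x y : ℕ → X) (n k : ℕ) (hn : 1 ≤ n) (hxy : x 0 = y 0)
    (hmin : ∀ u, g (x 0) ≤ g u) (hmax : ∀ u, g u ≤ g (x n))
    (hx : ∀ i < n, dist (x i) (x (i + 1)) ≤ ε)
    (hy : ∀ j < k, dist (y j) (y (j + 1)) ≤ ε)
    (hfar : ∀ i ≤ n, a < dist (x i) (y k)) :
    ∃ u v : X, |dist u v - a| ≤ 2 * ε ∧ |g u - g v| ≤ 2 * η := by
  classical
  set c : ℕ → ℕ → Fin 3 := fun i j =>
    if a < dist (x i) (y j) then 0 else if 0 < i ∧ g (y j) ≤ g (x i) then 1 else 2 with hc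
  have c0 : ∀ i j, c i j = 0 → a < dist (x i) (y j) := by
    intro i j h
    by_contra h'
    simp only [hc, if_neg h'] at h
    split_ifs at h <;> exact absurd h (by decide)
  have c1 : ∀ i j, c i j = 1 → dist (x i) (y j) ≤ a ∧ 0 < i ∧ g (y j) ≤ g (x i) := by
    intro i j h
    simp only [hc] at h
    split_ifs at h with h1 h2
    · exact absurd h (by decide)
    · exact ⟨not_lt.mp h1, h2⟩
    · exact absurd h (by decide)
  have c2 : ∀ i j, c i j = 2 → ¬ (0 < i ∧ g (y j) ≤ g (x i)) := by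
    intro i j h
    simp only [hc] at h
    split_ifs at h with h1 h2
    · exact absurd h (by decide)
    · exact absurd h (by decide)
    · exact h2
  have c2' : ∀ i j, c i j = 2 → g (x i) ≤ g (y j) := by
    intro i j h
    have h2 := c2 i j h
    rcases Nat.eq_zero_or_pos i with rfl | hi
    · exact hmin _
    · by_contra h3
      exact h2 ⟨hi, (not_le.mp h3).le⟩
  obtain ⟨i, hi, j, hj, hcol⟩ := grid_sperner n k c hn
    (fun i hi => by simp only [hc, if_pos (hfar i hi)])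
    (fun j _ h => absurd (c1 0 j h).2.1 (lt_irrefl 0))
    (fun j _ h => c2 n j h ⟨hn, hmax _⟩)
    (fun i _ hi h => c2 i 0 h ⟨hi, hxy ▸ hmin _⟩)
    (by
      have h1 : ¬ a < dist (x 0) (y 0) := by
        rw [hxy, dist_self]; exact not_lt.mpr (hε.trans hεa)
      simp only [hc, if_neg h1]
      rw [if_neg (fun h => absurd h.1 (lt_irrefl 0))])
    (by
      have h1 : ¬ a < dist (x 1) (y 0) := by
        rw [← hxy, dist_comm]; exact not_lt.mpr ((hx 0 hn).trans hεa)
      simp only [hc, if_neg h1]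
      rw [if_pos ⟨Nat.one_pos, hxy ▸ hmin _⟩])
  have key : ∀ col : Fin 3, ∃ i' j', (i' = i ∨ i' = i + 1) ∧ (j' = j ∨ j' = j + 1) ∧
      c i' j' = col := by
    intro col
    rcases hcol col with h | h | h | h
    · exact ⟨i, j, Or.inl rfl, Or.inl rfl, h⟩
    · exact ⟨i + 1, j, Or.inr rfl, Or.inl rfl, h⟩
    · exact ⟨i, j + 1, Or.inl rfl, Or.inr rfl, h⟩
    · exact ⟨i + 1, j + 1, Or.inr rfl, Or.inr rfl, h⟩
  have hxx : ∀ s t, (s = i ∨ s = i + 1) → (t = i ∨ t = i + 1) → dist (x s) (x t) ≤ ε := by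
    intro s t hs ht
    rcases hs with rfl | rfl <;> rcases ht with rfl | rfl
    · simpa using hε
    · exact hx _ hi
    · rw [dist_comm]; exact hx _ hi
    · simpa using hε
  have hyy : ∀ s t, (s = j ∨ s = j + 1) → (t = j ∨ t = j + 1) → dist (y s) (y t) ≤ ε := by
    intro s t hs ht
    rcases hs with rfl | rfl <;> rcases ht with rfl | rfl
    · simpa using hε
    · exact hy _ hj
    · rw [dist_comm]; exact hy _ hj
    · simpa using hε
  obtain ⟨i0, j0, hi0, hj0, h0⟩ := key 0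
  obtain ⟨i1, j1, hi1, hj1, h1⟩ := key 1
  obtain ⟨i2, j2, hi2, hj2, h2⟩ := key 2
  have e0 := c0 _ _ h0
  obtain ⟨e1, -, e1'⟩ := c1 _ _ h1
  have e2 := c2' _ _ h2
  refine ⟨x i1, y j1, ?_, ?_⟩
  · have t1 := dist_triangle4 (x i0) (x i1) (y j1) (y j0)
    have t2 := hxx i0 i1 hi0 hi1
    have t3 := hyy j1 j0 hj1 hj0
    rw [abs_le]
    constructor <;> linarith
  · have t2 := abs_le.mp (hg _ _ (hxx i1 i2 hi1 hi2))
    have t3 := abs_le.mp (hg _ _ (hyy j1 j2 hj1 hj2))
    rw [abs_le]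
    constructor <;> linarith [t2.1, t2.2, t3.1, t3.2]

/-- weak chain of length `n + 1` in `𝒞` from `p` to `q` -/
def WeakChain {X : Type*} (𝒞 : Set (Set X)) (p q : X) (n : ℕ) (C : ℕ → Set X) : Prop :=
  (∀ i ≤ n, C i ∈ 𝒞) ∧ p ∈ C 0 ∧ q ∈ C n ∧ ∀ i < n, (C i ∩ C (i + 1)).Nonempty

theorem exists_weakChain {X : Type*} [TopologicalSpace X] [PreconnectedSpace X]
    (𝒞 : Set (Set X)) (hopen : ∀ A ∈ 𝒞, IsOpen A) (hcov : ∀ u : X, ∃ A ∈ 𝒞, u ∈ A)
    (p q : X) : ∃ n C, WeakChain 𝒞 p q n C := by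
  classical
  set S : Set X := {r | ∃ n C, WeakChain 𝒞 p r n C} with hS
  have hext : ∀ A ∈ 𝒞, ∀ r ∈ A, r ∈ S → ∀ s ∈ A, s ∈ S := by
    rintro A hA r hr ⟨n, C, h1, h2, h3, h4⟩ s hs
    refine ⟨n + 1, fun i => if i ≤ n then C i else A, ?_, ?_, ?_, ?_⟩
    · intro i _
      by_cases h : i ≤ n
      · simp only [if_pos h]; exact h1 i h
      · simp only [if_neg h]; exact hA
    · simp only [if_pos (Nat.zero_le n)]; exact h2
    · simp only [if_neg (Nat.not_succ_le_self n)]; exact hs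
    · intro i hi
      by_cases h : i + 1 ≤ n
      · simp only [if_pos h, if_pos (Nat.le_of_succ_le h)]; exact h4 i h
      · have : i = n := by omega
        subst this
        simp only [if_neg h, if_pos (le_refl i)]
        exact ⟨r, h3, hr⟩
  have hSo : IsOpen S := by
    rw [isOpen_iff_forall_mem_open]
    intro r hr
    obtain ⟨A, hA, hrA⟩ := hcov r
    exact ⟨A, fun s hs => hext A hA r hrA hr s hs, hopen A hA, hrA⟩
  have hSc : IsClosed S := by
    rw [← isOpen_compl_iff, isOpen_iff_forall_mem_open]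
    intro r hr
    obtain ⟨A, hA, hrA⟩ := hcov r
    exact ⟨A, fun s hs hsS => hr (hext A hA s hs hsS r hrA), hopen A hA, hrA⟩
  have hp : p ∈ S := by
    obtain ⟨A, hA, hpA⟩ := hcov p
    exact ⟨0, fun _ => A, fun _ _ => hA, hpA, hpA, fun i hi => absurd hi (Nat.not_lt_zero i)⟩
  have : S = univ := IsClopen.eq_univ ⟨hSc, hSo⟩ ⟨p, hp⟩
  have hq : q ∈ S := this ▸ mem_univ q
  exact hq

/-- simple chain theorem -/
theorem exists_simpleChain {X : Type*} [TopologicalSpace X] [PreconnectedSpace X]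
    (𝒞 : Set (Set X)) (hopen : ∀ A ∈ 𝒞, IsOpen A) (hcov : ∀ u : X, ∃ A ∈ 𝒞, u ∈ A)
    (p q : X) : ∃ n C, WeakChain 𝒞 p q n C ∧
      ∀ i j, i + 2 ≤ j → j ≤ n → ¬ (C i ∩ C j).Nonempty := by
  classical
  have hex : ∃ n, ∃ C, WeakChain 𝒞 p q n C := exists_weakChain 𝒞 hopen hcov p q
  obtain ⟨C, hC⟩ := Nat.find_spec hex
  refine ⟨Nat.find hex, C, hC, ?_⟩
  intro i j hij hjn hne
  obtain ⟨h1, h2, h3, h4⟩ := hC
  set n := Nat.find hex with hn
  obtain ⟨t, rfl⟩ : ∃ t, j = i + 2 + t := ⟨j - (i + 2), by omega⟩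
  have hlt : n - (t + 1) < Nat.find hex := by omega
  apply Nat.find_min hex hlt
  refine ⟨fun s => if s ≤ i then C s else C (s + (t + 1)), ?_, ?_, ?_, ?_⟩
  · intro s hs
    by_cases h : s ≤ i
    · simp only [if_pos h]; exact h1 s (by omega)
    · simp only [if_neg h]; exact h1 _ (by omega)
  · simp only [if_pos (Nat.zero_le i)]; exact h2
  · have h : ¬ n - (t + 1) ≤ i := by omega
    simp only [if_neg h]
    rw [show n - (t + 1) + (t + 1) = n by omega]; exact h3
  · intro s hs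
    by_cases h : s + 1 ≤ i
    · simp only [if_pos h, if_pos (Nat.le_of_succ_le h)]; exact h4 s (by omega)
    · by_cases h' : s ≤ i
      · have : s = i := by omega
        subst this
        simp only [if_neg h, if_pos h']
        rw [show s + 1 + (t + 1) = s + 2 + t by omega]; exact hne
      · simp only [if_neg h, if_neg h']
        rw [show s + 1 + (t + 1) = s + (t + 1) + 1 by omega]
        exact h4 _ (by omega)

theorem points_of_weakChain {X : Type*} {𝒞 : Set (Set X)} {p q : X} {n : ℕ} {C : ℕ → Set X}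
    (h : WeakChain 𝒞 p q n C) :
    ∃ x : ℕ → X, x 0 = p ∧ x (n + 1) = q ∧ ∀ i ≤ n, x i ∈ C i ∧ x (i + 1) ∈ C i := by
  classical
  obtain ⟨-, h2, h3, h4⟩ := h
  have h5 : ∀ i, ∃ w : X, i < n → w ∈ C i ∩ C (i + 1) := by
    intro i
    by_cases hi : i < n
    · obtain ⟨w, hw⟩ := h4 i hi
      exact ⟨w, fun _ => hw⟩
    · exact ⟨p, fun h => absurd h hi⟩
  choose w hw using h5
  refine ⟨fun i => if i = 0 then p else if i ≤ n then w (i - 1) else q, by simp, by simp, ?_⟩
  intro i hi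
  constructor
  · rcases Nat.eq_zero_or_pos i with rfl | hi0
    · simpa using h2
    · simp only [if_neg hi0.ne', if_pos hi]
      have := (hw (i - 1) (by omega)).2
      rwa [show i - 1 + 1 = i by omega] at this
  · simp only [if_neg (Nat.succ_ne_zero i), Nat.add_sub_cancel]
    by_cases h : i + 1 ≤ n
    · simp only [if_pos h]; exact (hw i h).1
    · have : i = n := by omega
      subst this
      simp only [if_neg h]; exact h3

/-- The case of real valued maps. -/
theorem real_case {X : Type*} [MetricSpace X] [CompactSpace X] [ConnectedSpace X]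
    (a b : ℝ) (ha : 0 < a) (hab : a < b)
    (H : ∀ ε > 0, ∃ 𝒞 : Set (Set X), (∀ A ∈ 𝒞, IsOpen A) ∧ (∀ u : X, ∃ A ∈ 𝒞, u ∈ A) ∧
      (∀ A ∈ 𝒞, ∀ u ∈ A, ∀ v ∈ A, dist u v ≤ ε) ∧
      ∀ (n : ℕ) (C : ℕ → Set X), (∀ i ≤ n, C i ∈ 𝒞) → (∀ i ≤ n, (C i).Nonempty) →
        (∀ i < n, (C i ∩ C (i + 1)).Nonempty) →
        (∀ i j, i + 2 ≤ j → j ≤ n → ¬ (C i ∩ C j).Nonempty) →
        ∃ z : X, ∀ i ≤ n, ∀ u ∈ C i, b ≤ dist z u)
    (g : X → ℝ) (hg : Continuous g) :
    ∃ x y : X, dist x y = a ∧ g x = g y := by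
  obtain ⟨p, -, hp⟩ := isCompact_univ.exists_isMinOn (univ_nonempty (α := X)) hg.continuousOn
  obtain ⟨q, -, hq⟩ := isCompact_univ.exists_isMaxOn (univ_nonempty (α := X)) hg.continuousOn
  have hp' : ∀ u, g p ≤ g u := fun u => hp (mem_univ u)
  have hq' : ∀ u, g u ≤ g q := fun u => hq (mem_univ u)
  have huc : UniformContinuous g := CompactSpace.uniformContinuous_of_continuous hg
  have happ : ∀ η > 0, ∃ u v : X, |dist u v - a| + |g u - g v| ≤ 4 * η := by
    intro η hη
    obtain ⟨δ, hδ, hδ'⟩ := Metric.uniformContinuous_iff.mp huc η hη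
    set ε := min (δ / 2) (min a η) with hε
    have hε0 : 0 < ε := lt_min (half_pos hδ) (lt_min ha hη)
    have hε1 : ε ≤ δ / 2 := min_le_left _ _
    have hε2 : ε ≤ a := (min_le_right _ _).trans (min_le_left _ _)
    have hε3 : ε ≤ η := (min_le_right _ _).trans (min_le_right _ _)
    obtain ⟨𝒞, hopen, hcov, hdiam, hch⟩ := H ε hε0
    obtain ⟨n, C, hC, hsimple⟩ := exists_simpleChain 𝒞 hopen hcov p q
    obtain ⟨x, hx0, hxn, hx⟩ := points_of_weakChain hC
    obtain ⟨z, hz⟩ := hch n C hC.1 (fun i hi => ⟨x i, (hx i hi).1⟩) hC.2.2.2 hsimple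
    obtain ⟨k, D, hD⟩ := exists_weakChain 𝒞 hopen hcov p z
    obtain ⟨y, hy0, hyk, hy⟩ := points_of_weakChain hD
    obtain ⟨u, v, h1, h2⟩ := approx_pair g a ε η hη.le hε0.le hε2
      (fun u v huv => by
        have := hδ' (a := u) (b := v) (by linarith)
        rw [Real.dist_eq] at this
        exact this.le)
      x y (n + 1) (k + 1) (by omega) (by rw [hx0, hy0])
      (by rw [hx0]; exact hp') (by rw [hxn]; exact hq')
      (fun i hi => hdiam _ (hC.1 i (by omega)) _ (hx i (by omega)).1 _ (hx i (by omega)).2)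
      (fun j hj => hdiam _ (hD.1 j (by omega)) _ (hy j (by omega)).1 _ (hy j (by omega)).2)
      (fun i hi => by
        rw [hyk, dist_comm]
        refine hab.trans_le ?_
        rcases Nat.eq_zero_or_pos i with rfl | hi0
        · exact hz 0 (Nat.zero_le n) _ (hx 0 (Nat.zero_le n)).1
        · have := hz (i - 1) (by omega) _ (hx (i - 1) (by omega)).2
          rwa [show i - 1 + 1 = i by omega] at this)
    exact ⟨u, v, by linarith⟩
  have hF : Continuous fun w : X × X => |dist w.1 w.2 - a| + |g w.1 - g w.2| := by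
    fun_prop
  obtain ⟨w, -, hw⟩ := isCompact_univ.exists_isMinOn (univ_nonempty (α := X × X)) hF.continuousOn
  have hle : |dist w.1 w.2 - a| + |g w.1 - g w.2| ≤ 0 := by
    apply le_of_forall_pos_le_add
    intro η hη
    obtain ⟨u, v, huv⟩ := happ (η / 4) (by linarith)
    have := hw (mem_univ (u, v))
    simp only [mem_ofPred_eq] at this
    linarith
  have n1 := abs_nonneg (dist w.1 w.2 - a)
  have n2 := abs_nonneg (g w.1 - g w.2)
  refine ⟨w.1, w.2, ?_, ?_⟩
  · have : |dist w.1 w.2 - a| = 0 := by linarith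
    exact sub_eq_zero.mp (abs_eq_zero.mp this)
  · have : |g w.1 - g w.2| = 0 := by linarith
    exact sub_eq_zero.mp (abs_eq_zero.mp this)

/-- Passage from real valued maps to maps into a space with small-fibred real valued maps. -/
theorem of_real_case {X Y : Type*} [MetricSpace X] [CompactSpace X] [MetricSpace Y] (a : ℝ)
    (H : ∀ g : X → ℝ, Continuous g → ∃ x y : X, dist x y = a ∧ g x = g y)
    (hY : ∀ ε > 0, ∃ h : Y → ℝ, Continuous h ∧ ∀ s t, h s = h t → dist s t ≤ ε)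
    (f : X → Y) (hf : Continuous f) :
    ∃ x y : X, dist x y = a ∧ f x = f y := by
  have hK : IsCompact {w : X × X | dist w.1 w.2 = a} :=
    (isClosed_eq (continuous_fst.dist continuous_snd) continuous_const).isCompact
  have hne : {w : X × X | dist w.1 w.2 = a}.Nonempty := by
    obtain ⟨x, y, h, -⟩ := H (fun _ => 0) continuous_const
    exact ⟨(x, y), h⟩
  have hF : Continuous fun w : X × X => dist (f w.1) (f w.2) := by fun_prop
  obtain ⟨w, hw, hmin⟩ := hK.exists_isMinOn hne hF.continuousOn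
  refine ⟨w.1, w.2, hw, ?_⟩
  apply eq_of_dist_eq_zero
  apply le_antisymm _ dist_nonneg
  apply le_of_forall_pos_le_add
  intro ε hε
  obtain ⟨h, hh, hfib⟩ := hY ε hε
  obtain ⟨x, y, hxy, hxy'⟩ := H (h ∘ f) (hh.comp hf)
  have h1 := hmin (show (x, y) ∈ {w : X × X | dist w.1 w.2 = a} from hxy)
  have h2 := hfib (f x) (f y) hxy'
  simp only [mem_ofPred_eq] at h1
  linarith

end Pool.Agent.P.MP_75c46b_gt
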