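import Mathlib
import Pool.Agent.P.MP_75c46b_gt.Core
import Pool.Agent.P.MP_18ddbc_gt.Topo

set_option autoImplicit false

namespace Pool.Agent.P.MP_75c46b_gt

open Set

/-- any two points are joined by arbitrarily fine chains of points staying `b` away from a point -/
def FarChains (X : Type*) [MetricSpace X] (b : ℝ) : Prop :=
  ∀ p q : X, ∀ ε > 0, ∃ (x : ℕ → X) (n : ℕ) (z : X), 1 ≤ n ∧ x 0 = p ∧ x n = q ∧
    (∀ i < n, dist (x i) (x (i + 1)) ≤ ε) ∧ ∀ i ≤ n, b ≤ dist (x i) z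

theorem approx_pair' {X : Type*} [PseudoMetricSpace X] (g : X → ℝ) (ρ : X × X → ℝ) (a ε η : ℝ)
    (hε : 0 ≤ ε)
    (hg : ∀ u v : X, dist u v ≤ ε → |g u - g v| ≤ η)
    (hρ : ∀ u v u' v' : X, dist u u' ≤ ε → dist v v' ≤ ε → |ρ (u, v) - ρ (u', v')| ≤ η)
    (hρ0 : ∀ u v : X, dist u v ≤ ε → ρ (u, v) ≤ a)
    (x y : ℕ → X) (n k : ℕ) (hn : 1 ≤ n) (hxy : x 0 = y 0)
    (hmin : ∀ u, g (x 0) ≤ g u) (hmax : ∀ u, g u ≤ g (x n))
    (hx : ∀ i < n, dist (x i) (x (i + 1)) ≤ ε)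
    (hy : ∀ j < k, dist (y j) (y (j + 1)) ≤ ε)
    (hfar : ∀ i ≤ n, a < ρ (x i, y k)) :
    ∃ u v : X, |ρ (u, v) - a| ≤ η ∧ |g u - g v| ≤ 2 * η := by
  classical
  set c : ℕ → ℕ → Fin 3 := fun i j =>
    if a < ρ (x i, y j) then 0 else if 0 < i ∧ g (y j) ≤ g (x i) then 1 else 2 with hc
  have c0 : ∀ i j, c i j = 0 → a < ρ (x i, y j) := by
    intro i j h
    by_contra h'
    simp only [hc, if_neg h'] at h
    split_ifs at h <;> exact absurd h (by decide)
  have c1 : ∀ i j, c i j = 1 → ρ (x i, y j) ≤ a ∧ 0 < i ∧ g (y j) ≤ g (x i) := by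
    intro i j h
    simp only [hc] at h
    split_ifs at h with h1 h2
    · exact absurd h (by decide)
    · exact ⟨not_lt.mp h1, h2⟩
    · exact absurd h (by decide)
  have c2 : ∀ i j, c i j = 2 → ¬ (0 < i ∧ g (y j) ≤ g (x i)) := by
    intro i j h
    simp only [hc] at h
    split_ifs at h with h1 h2
    · exact absurd h (by decide)
    · exact absurd h (by decide)
    · exact h2
  have c2' : ∀ i j, c i j = 2 → g (x i) ≤ g (y j) := by
    intro i j h
    have h2 := c2 i j h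
    rcases Nat.eq_zero_or_pos i with rfl | hi
    · exact hmin _
    · by_contra h3
      exact h2 ⟨hi, (not_le.mp h3).le⟩
  obtain ⟨i, hi, j, hj, hcol⟩ := grid_sperner n k c hn
    (fun i hi => by simp only [hc, if_pos (hfar i hi)])
    (fun j _ h => absurd (c1 0 j h).2.1 (lt_irrefl 0))
    (fun j _ h => c2 n j h ⟨hn, hmax _⟩)
    (fun i _ hi h => c2 i 0 h ⟨hi, hxy ▸ hmin _⟩)
    (by
      have h1 : ¬ a < ρ (x 0, y 0) :=
        not_lt.mpr (hρ0 _ _ (by rw [hxy, dist_self]; exact hε))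
      simp only [hc, if_neg h1]
      rw [if_neg (fun h => absurd h.1 (lt_irrefl 0))])
    (by
      have h1 : ¬ a < ρ (x 1, y 0) :=
        not_lt.mpr (hρ0 _ _ (by rw [← hxy, dist_comm]; exact hx 0 hn))
      simp only [hc, if_neg h1]
      rw [if_pos ⟨Nat.one_pos, hxy ▸ hmin _⟩])
  have key : ∀ col : Fin 3, ∃ i' j', (i' = i ∨ i' = i + 1) ∧ (j' = j ∨ j' = j + 1) ∧
      c i' j' = col := by
    intro col
    rcases hcol col with h | h | h | h
    · exact ⟨i, j, Or.inl rfl, Or.inl rfl, h⟩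
    · exact ⟨i + 1, j, Or.inr rfl, Or.inl rfl, h⟩
    · exact ⟨i, j + 1, Or.inl rfl, Or.inr rfl, h⟩
    · exact ⟨i + 1, j + 1, Or.inr rfl, Or.inr rfl, h⟩
  have hxx : ∀ s t, (s = i ∨ s = i + 1) → (t = i ∨ t = i + 1) → dist (x s) (x t) ≤ ε := by
    intro s t hs ht
    rcases hs with rfl | rfl <;> rcases ht with rfl | rfl
    · simpa using hε
    · exact hx _ hi
    · rw [dist_comm]; exact hx _ hi
    · simpa using hε
  have hyy : ∀ s t, (s = j ∨ s = j + 1) → (t = j ∨ t = j + 1) → dist (y s) (y t) ≤ ε := by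
    intro s t hs ht
    rcases hs with rfl | rfl <;> rcases ht with rfl | rfl
    · simpa using hε
    · exact hy _ hj
    · rw [dist_comm]; exact hy _ hj
    · simpa using hε
  obtain ⟨i0, j0, hi0, hj0, h0⟩ := key 0
  obtain ⟨i1, j1, hi1, hj1, h1⟩ := key 1
  obtain ⟨i2, j2, hi2, hj2, h2⟩ := key 2
  have e0 := c0 _ _ h0
  obtain ⟨e1, -, e1'⟩ := c1 _ _ h1
  have e2 := c2' _ _ h2
  refine ⟨x i1, y j1, ?_, ?_⟩
  · have t1 := abs_le.mp (hρ _ _ _ _ (hxx i0 i1 hi0 hi1) (hyy j0 j1 hj0 hj1))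
    rw [abs_le]
    constructor <;> linarith [t1.1, t1.2]
  · have t2 := abs_le.mp (hg _ _ (hxx i1 i2 hi1 hi2))
    have t3 := abs_le.mp (hg _ _ (hyy j1 j2 hj1 hj2))
    rw [abs_le]
    constructor <;> linarith [t2.1, t2.2, t3.1, t3.2]

theorem fine_chain {X : Type*} [MetricSpace X] {L : Set X} (hL : IsPreconnected L) {p q : X}
    (hp : p ∈ L) (hq : q ∈ L) {ε : ℝ} (hε : 0 < ε) :
    ∃ (x : ℕ → X) (n : ℕ), 1 ≤ n ∧ x 0 = p ∧ x n = q ∧
      (∀ i < n, dist (x i) (x (i + 1)) ≤ ε) ∧ ∀ i, x i ∈ L := by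
  have : PreconnectedSpace L := isPreconnected_iff_preconnectedSpace.mp hL
  obtain ⟨n, C, hC⟩ := exists_weakChain {A : Set L | ∃ u : L, A = Metric.ball u (ε / 2)}
    (by rintro A ⟨u, rfl⟩; exact Metric.isOpen_ball)
    (fun u => ⟨_, ⟨u, rfl⟩, Metric.mem_ball_self (half_pos hε)⟩) ⟨p, hp⟩ ⟨q, hq⟩
  obtain ⟨x, hx0, hxn, hx⟩ := points_of_weakChain hC
  refine ⟨fun i => (x i : X), n + 1, by omega, by simp [hx0], by simp [hxn], fun i hi => ?_,
    fun i => (x i).2⟩
  obtain ⟨u, hu⟩ := hC.1 i (by omega)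
  have h1 := (hx i (by omega)).1
  have h2 := (hx i (by omega)).2
  rw [hu, Metric.mem_ball] at h1 h2
  have h3 := dist_triangle_right (x i) (x (i + 1)) u
  have h4 : dist (x i) (x (i + 1)) ≤ ε := by linarith
  exact h4

theorem real_case' {X : Type*} [MetricSpace X] [CompactSpace X] [ConnectedSpace X] {b : ℝ}
    (H : FarChains X b) (ρ : X × X → ℝ) (hρ : Continuous ρ) (h0 : ∀ u, ρ (u, u) = 0)
    (h1 : ∀ u v, b ≤ dist u v → ρ (u, v) = 1) (g : X → ℝ) (hg : Continuous g) :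
    ∃ w : X × X, ρ w = 1 / 2 ∧ g w.1 = g w.2 := by
  obtain ⟨p, -, hp⟩ := isCompact_univ.exists_isMinOn (univ_nonempty (α := X)) hg.continuousOn
  obtain ⟨q, -, hq⟩ := isCompact_univ.exists_isMaxOn (univ_nonempty (α := X)) hg.continuousOn
  have hp' : ∀ u, g p ≤ g u := fun u => hp (mem_univ u)
  have hq' : ∀ u, g u ≤ g q := fun u => hq (mem_univ u)
  have huc : UniformContinuous g := CompactSpace.uniformContinuous_of_continuous hg
  have huc' : UniformContinuous ρ := CompactSpace.uniformContinuous_of_continuous hρ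
  have happ : ∀ η > 0, η ≤ 1 / 2 → ∃ u v : X, |ρ (u, v) - 1 / 2| + |g u - g v| ≤ 3 * η := by
    intro η hη hη2
    obtain ⟨δ, hδ, hδ'⟩ := Metric.uniformContinuous_iff.mp huc η hη
    obtain ⟨γ, hγ, hγ'⟩ := Metric.uniformContinuous_iff.mp huc' η hη
    set ε := min (δ / 2) (γ / 2) with hε
    have hε0 : 0 < ε := lt_min (half_pos hδ) (half_pos hγ)
    have hε1 : ε ≤ δ / 2 := min_le_left _ _
    have hε2 : ε ≤ γ / 2 := min_le_right _ _
    have hρ' : ∀ u v u' v' : X, dist u u' ≤ ε → dist v v' ≤ ε →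
        |ρ (u, v) - ρ (u', v')| ≤ η := by
      intro u v u' v' e1 e2
      have := hγ' (a := (u, v)) (b := (u', v')) (by
        rw [Prod.dist_eq]; exact max_lt (by simp only; linarith) (by simp only; linarith))
      rw [Real.dist_eq] at this
      exact this.le
    obtain ⟨x, n, z, hn, hx0, hxn, hx, hz⟩ := H p q ε hε0
    obtain ⟨y, k, -, hy0, hyk, hy, -⟩ :=
      fine_chain (isPreconnected_univ (α := X)) (mem_univ p) (mem_univ z) hε0
    obtain ⟨u, v, e1, e2⟩ := approx_pair' g ρ (1 / 2) ε η hε0.le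
      (fun u v huv => by
        have := hδ' (a := u) (b := v) (by linarith)
        rw [Real.dist_eq] at this
        exact this.le) hρ'
      (fun u v huv => by
        have := abs_le.mp (hρ' u v v v huv (by simpa using hε0.le))
        rw [h0] at this
        linarith [this.2])
      x y n k hn (by rw [hx0, hy0]) (by rw [hx0]; exact hp') (by rw [hxn]; exact hq') hx hy
      (fun i hi => by rw [hyk, h1 _ _ (hz i hi)]; norm_num)
    exact ⟨u, v, by linarith⟩
  have hF : Continuous fun w : X × X => |ρ w - 1 / 2| + |g w.1 - g w.2| := by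
    fun_prop
  obtain ⟨w, -, hw⟩ := isCompact_univ.exists_isMinOn (univ_nonempty (α := X × X)) hF.continuousOn
  have hle : |ρ w - 1 / 2| + |g w.1 - g w.2| ≤ 0 := by
    apply le_of_forall_pos_le_add
    intro η hη
    obtain ⟨u, v, huv⟩ := happ (min (η / 3) (1 / 2)) (lt_min (by linarith) (by norm_num))
      (min_le_right _ _)
    have := hw (mem_univ (u, v))
    simp only [mem_ofPred_eq] at this
    linarith [min_le_left (η / 3) (1 / 2)]
  have n1 := abs_nonneg (ρ w - 1 / 2)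
  have n2 := abs_nonneg (g w.1 - g w.2)
  refine ⟨w, ?_, ?_⟩
  · have : |ρ w - 1 / 2| = 0 := by linarith
    exact sub_eq_zero.mp (abs_eq_zero.mp this)
  · have : |g w.1 - g w.2| = 0 := by linarith
    exact sub_eq_zero.mp (abs_eq_zero.mp this)

theorem of_real_case' {X Y : Type*} [MetricSpace X] [CompactSpace X] [MetricSpace Y]
    {K : Set (X × X)} (hK : IsClosed K)
    (H : ∀ g : X → ℝ, Continuous g → ∃ w ∈ K, g w.1 = g w.2)
    (hY : ∀ ε > 0, ∃ h : Y → ℝ, Continuous h ∧ ∀ s t, h s = h t → dist s t ≤ ε)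
    (f : X → Y) (hf : Continuous f) : ∃ w ∈ K, f w.1 = f w.2 := by
  have hne : K.Nonempty := by
    obtain ⟨w, h, -⟩ := H (fun _ => 0) continuous_const
    exact ⟨w, h⟩
  have hF : Continuous fun w : X × X => dist (f w.1) (f w.2) := by fun_prop
  obtain ⟨w, hw, hmin⟩ := hK.isCompact.exists_isMinOn hne hF.continuousOn
  refine ⟨w, hw, ?_⟩
  apply eq_of_dist_eq_zero
  apply le_antisymm _ dist_nonneg
  apply le_of_forall_pos_le_add
  intro ε hε
  obtain ⟨h, hh, hfib⟩ := hY ε hε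
  obtain ⟨v, hv, hv'⟩ := H (h ∘ f) (hh.comp hf)
  have h1 := hmin hv
  have h2 := hfib (f v.1) (f v.2) hv'
  simp only [mem_ofPred_eq] at h1
  linarith

/-- the component of the diagonal in the coincidence set reaches distance `b` -/
theorem comp_far {X Y : Type*} [MetricSpace X] [CompactSpace X] [ConnectedSpace X]
    [MetricSpace Y] {b : ℝ} (H : FarChains X b)
    (hY : ∀ ε > 0, ∃ h : Y → ℝ, Continuous h ∧ ∀ s t, h s = h t → dist s t ≤ ε)
    (f : X → Y) (hf : Continuous f) (p : X) :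
    ∃ w ∈ connectedComponentIn {w : X × X | f w.1 = f w.2} (p, p), b ≤ dist w.1 w.2 := by
  have hE : IsClosed {w : X × X | f w.1 = f w.2} :=
    isClosed_eq (hf.comp continuous_fst) (hf.comp continuous_snd)
  have hB : IsClosed {w : X × X | b ≤ dist w.1 w.2} :=
    isClosed_le continuous_const (continuous_fst.dist continuous_snd)
  obtain ⟨w, hw1, hw2⟩ := Pool.Agent.P.MP_18ddbc_gt.comp_meets hE hB (x := (p, p)) rfl (by
    intro U V hU hV hUV hsub hpU
    by_contra hne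
    have hdiag : ∀ u : X, (u, u) ∈ U := by
      have hc : IsPreconnected (range fun u : X => (u, u)) :=
        isPreconnected_range (continuous_id.prodMk continuous_id)
      have hs : (range fun u : X => (u, u)) ⊆ U ∪ V := by
        rintro _ ⟨u, rfl⟩; exact hsub rfl
      have hn : ((range fun u : X => (u, u)) ∩ U).Nonempty := ⟨(p, p), ⟨p, rfl⟩, hpU⟩
      have := hc.subset_left_of_subset_union hU hV hUV hs hn
      exact fun u => this ⟨u, rfl⟩
    obtain ⟨ρ, r0, r1, -⟩ := exists_continuous_zero_one_of_isClosed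
      (hE.inter hV.isClosed_compl) ((hE.inter hU.isClosed_compl).union hB) (by
        rw [disjoint_left]
        rintro w ⟨hwE, hwV⟩ hw
        have hwU : w ∈ U := (hsub hwE).resolve_right hwV
        rcases hw with hw | hw
        · exact hw.2 hwU
        · exact hne ⟨w, ⟨hwE, hwU⟩, hw⟩)
    obtain ⟨w, hw, hwE⟩ := of_real_case' (K := {w : X × X | ρ w = 1 / 2})
      (isClosed_eq ρ.continuous continuous_const)
      (fun g hg => real_case' H ρ ρ.continuous
        (fun u => r0 ⟨rfl, disjoint_left.mp hUV (hdiag u)⟩)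
        (fun u v huv => r1 (Or.inr huv)) g hg) hY f hf
    have hw' : ρ w = 1 / 2 := hw
    by_cases hwV : w ∈ V
    · have : ρ w = 1 := r1 (Or.inl ⟨hwE, disjoint_right.mp hUV hwV⟩)
      linarith
    · have : ρ w = 0 := r0 ⟨hwE, hwV⟩
      linarith)
  exact ⟨w, hw1, hw2⟩

theorem farChains_of_connected {X : Type*} [MetricSpace X] {b : ℝ}
    (H : ∀ p q : X, ∃ L : Set X, IsPreconnected L ∧ p ∈ L ∧ q ∈ L ∧
      ∃ z : X, ∀ u ∈ L, b ≤ dist u z) : FarChains X b := by
  intro p q ε hε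
  obtain ⟨L, hL, hp, hq, z, hz⟩ := H p q
  obtain ⟨x, n, hn, h0, h1, h2, h3⟩ := fine_chain hL hp hq hε
  exact ⟨x, n, z, hn, h0, h1, h2, fun i _ => hz _ (h3 i)⟩

theorem farChains_of_cover {X : Type*} [MetricSpace X] [ConnectedSpace X] {b : ℝ}
    (H : ∀ ε > 0, ∃ 𝒞 : Set (Set X), (∀ A ∈ 𝒞, IsOpen A) ∧ (∀ u : X, ∃ A ∈ 𝒞, u ∈ A) ∧
      (∀ A ∈ 𝒞, ∀ u ∈ A, ∀ v ∈ A, dist u v ≤ ε) ∧
      ∀ (n : ℕ) (C : ℕ → Set X), (∀ i ≤ n, C i ∈ 𝒞) → (∀ i ≤ n, (C i).Nonempty) →
        (∀ i < n, (C i ∩ C (i + 1)).Nonempty) →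
        (∀ i j, i + 2 ≤ j → j ≤ n → ¬ (C i ∩ C j).Nonempty) →
        ∃ z : X, ∀ i ≤ n, ∀ u ∈ C i, b ≤ dist z u) : FarChains X b := by
  intro p q ε hε
  obtain ⟨𝒞, hopen, hcov, hdiam, hch⟩ := H ε hε
  obtain ⟨n, C, hC, hsimple⟩ := exists_simpleChain 𝒞 hopen hcov p q
  obtain ⟨x, hx0, hxn, hx⟩ := points_of_weakChain hC
  obtain ⟨z, hz⟩ := hch n C hC.1 (fun i hi => ⟨x i, (hx i hi).1⟩) hC.2.2.2 hsimple
  refine ⟨x, n + 1, z, by omega, hx0, hxn,
    fun i hi => hdiam _ (hC.1 i (by omega)) _ (hx i (by omega)).1 _ (hx i (by omega)).2,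
    fun i hi => ?_⟩
  rw [dist_comm]
  rcases Nat.eq_zero_or_pos i with rfl | hi0
  · exact hz 0 (Nat.zero_le n) _ (hx 0 (Nat.zero_le n)).1
  · have := hz (i - 1) (by omega) _ (hx (i - 1) (by omega)).2
    rwa [show i - 1 + 1 = i by omega] at this

/-- the continuum of coincidence pairs -/
theorem continuum_of_far {X Y : Type*} [MetricSpace X] [CompactSpace X] [ConnectedSpace X]
    [MetricSpace Y]
    (hY : ∀ ε > 0, ∃ h : Y → ℝ, Continuous h ∧ ∀ s t, h s = h t → dist s t ≤ ε)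
    (f : X → Y) (hf : Continuous f) :
    ∃ C : Set (X × X), IsCompact C ∧ IsConnected C ∧ (∀ x, (x, x) ∈ C) ∧
      (∀ w ∈ C, f w.1 = f w.2) ∧
      ∀ a : ℝ, 0 ≤ a → (∀ c, 0 < c → c < a → ∃ b, c < b ∧ FarChains X b) →
        ∃ w ∈ C, dist w.1 w.2 = a := by
  obtain ⟨p⟩ : Nonempty X := inferInstance
  have hE : IsClosed {w : X × X | f w.1 = f w.2} :=
    isClosed_eq (hf.comp continuous_fst) (hf.comp continuous_snd)
  have hpE : (p, p) ∈ {w : X × X | f w.1 = f w.2} := rfl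
  have hcl : IsClosed (connectedComponentIn {w : X × X | f w.1 = f w.2} (p, p)) := by
    rw [connectedComponentIn_eq_image hpE]
    exact hE.isClosedEmbedding_subtypeVal.isClosedMap _ isClosed_connectedComponent
  have hcon : IsConnected (connectedComponentIn {w : X × X | f w.1 = f w.2} (p, p)) :=
    isConnected_connectedComponentIn_iff.mpr hpE
  have hdiag : ∀ x : X, (x, x) ∈ connectedComponentIn {w : X × X | f w.1 = f w.2} (p, p) := by
    have hc : IsPreconnected (range fun u : X => (u, u)) :=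
      isPreconnected_range (continuous_id.prodMk continuous_id)
    exact fun x => hc.subset_connectedComponentIn ⟨p, rfl⟩ (by rintro _ ⟨u, rfl⟩; rfl) ⟨x, rfl⟩
  refine ⟨_, hcl.isCompact, hcon, hdiag,
    fun w hw => connectedComponentIn_subset {w : X × X | f w.1 = f w.2} (p, p) hw, ?_⟩
  intro a ha H
  have hd : Continuous fun w : X × X => dist w.1 w.2 := continuous_fst.dist continuous_snd
  obtain ⟨m, hm, hmax⟩ := hcl.isCompact.exists_isMaxOn hcon.nonempty hd.continuousOn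
  have ham : a ≤ dist m.1 m.2 := by
    by_contra hlt
    have hlt' := not_le.mp hlt
    have h0 : 0 ≤ dist m.1 m.2 := dist_nonneg
    obtain ⟨b, hb, hb'⟩ := H ((dist m.1 m.2 + a) / 2) (by linarith) (by linarith)
    obtain ⟨w, hw, hw'⟩ := comp_far hb' hY f hf p
    have := hmax hw
    simp only [mem_ofPred_eq] at this
    linarith
  obtain ⟨w, hw, hw'⟩ := hcon.isPreconnected.intermediate_value (hdiag p) hm hd.continuousOn
    (show a ∈ Icc (dist p p) (dist m.1 m.2) from ⟨by simpa using ha, ham⟩)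
  exact ⟨w, hw, hw'⟩

end Pool.Agent.P.MP_75c46b_gt
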