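import Mathlib
import Pool.Agent.P.MP_75c46b_gt.Core

set_option autoImplicit false

namespace Pool.Agent.P.MP_75c46b_gt.OldWidth

open Set

/-- `d(A, B) = inf {d(p, q) : p ∈ A, q ∈ B}` (only used for nonempty `A`, `B`). -/
noncomputable def setDist {X : Type*} [MetricSpace X] (A B : Set X) : ℝ :=
  sInf {r : ℝ | ∃ p ∈ A, ∃ q ∈ B, r = dist p q}

/-- `C 0, …, C n` is a chain: `C i ∩ C j ≠ ∅` if and only if `|i - j| ≤ 1`. -/
def IsChainOfSets {X : Type*} {n : ℕ} (C : Fin (n + 1) → Set X) : Prop :=
  ∀ i j : Fin (n + 1), (C i ∩ C j).Nonempty ↔ |((i : ℕ) : ℤ) - ((j : ℕ) : ℤ)| ≤ 1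

/-- The property of the real number `a` in the definition of the width: for every `ε > 0` there is
a finite open cover `𝒞` of mesh less than `ε` such that for every chain of members of `𝒞` some
(nonempty) member `A` of `𝒞` has distance at least `a` from the union of the chain. -/
def WidthProp (X : Type*) [MetricSpace X] (a : ℝ) : Prop :=
  ∀ ε : ℝ, 0 < ε → ∃ 𝒞 : Set (Set X), 𝒞.Finite ∧ (∀ A ∈ 𝒞, IsOpen A) ∧ ⋃₀ 𝒞 = univ ∧
    (∀ A ∈ 𝒞, Metric.diam A < ε) ∧
    ∀ (n : ℕ) (C : Fin (n + 1) → Set X), (∀ i, C i ∈ 𝒞) → IsChainOfSets C →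
      ∃ A ∈ 𝒞, A.Nonempty ∧ a ≤ setDist A (⋃ i, C i)

/-- The width `w(X)`: the supremum of all `a` with the property `WidthProp X a`. -/
noncomputable def width (X : Type*) [MetricSpace X] : ℝ :=
  sSup {a : ℝ | WidthProp X a}

/-- `Y` is chainable (arc-like): for every `ε > 0` there is an `ε`-map of `Y` onto `[0, 1]`. -/
def IsChainable (Y : Type*) [MetricSpace Y] : Prop :=
  ∀ ε : ℝ, 0 < ε → ∃ g : Y → unitInterval, Continuous g ∧ Function.Surjective g ∧
    ∀ z : unitInterval, Metric.diam (g ⁻¹' {z}) ≤ ε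

/-- For every continuum `X` (tree-like or not), every chainable continuum `Y`, every continuous
`f : X → Y` and every `a` with `0 < a < w(X)` there are `x, y` with `d(x, y) = a`, `f x = f y`. -/
theorem result (X Y : Type*) [MetricSpace X] [CompactSpace X] [ConnectedSpace X]
    [MetricSpace Y] [CompactSpace Y] [ConnectedSpace Y] (hY : IsChainable Y)
    (f : X → Y) (hf : Continuous f) (a : ℝ) (ha : 0 < a) (haw : a < width X) :
    ∃ x y : X, dist x y = a ∧ f x = f y := by
  have hne : {b : ℝ | WidthProp X b}.Nonempty := by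
    by_contra h
    rw [not_nonempty_iff_eq_empty] at h
    rw [width, h, Real.sSup_empty] at haw
    linarith
  obtain ⟨b, hb, hab⟩ := exists_lt_of_lt_csSup hne haw
  refine Pool.Agent.P.MP_75c46b_gt.of_real_case a
    (Pool.Agent.P.MP_75c46b_gt.real_case a b ha hab ?_) ?_ f hf
  · intro ε hε
    obtain ⟨𝒞, -, hopen, hcov, hdiam, hch⟩ := hb ε hε
    refine ⟨𝒞, hopen, ?_, ?_, ?_⟩
    · intro u
      have : u ∈ ⋃₀ 𝒞 := hcov ▸ mem_univ u
      exact this
    · intro A hA u hu v hv
      exact (Metric.dist_le_diam_of_mem Metric.isBounded_of_compactSpace hu hv).trans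
        (hdiam A hA).le
    · intro n C h1 h2 h3 h4
      obtain ⟨A, -, ⟨z, hz⟩, hA⟩ := hch n (fun i => C i) (fun i => h1 i (Nat.lt_succ_iff.mp i.2))
        (by
          intro i j
          have hi := Nat.lt_succ_iff.mp i.2
          have hj := Nat.lt_succ_iff.mp j.2
          constructor
          · intro h
            rw [abs_le]
            by_contra hcon
            rcases le_total (i : ℕ) j with hij | hij
            · exact h4 i j (by omega) hj h
            · exact h4 j i (by omega) hi (by rwa [inter_comm])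
          · intro h
            rw [abs_le] at h
            have : (j : ℕ) = i ∨ (j : ℕ) = i + 1 ∨ (i : ℕ) = j + 1 := by omega
            show (C i ∩ C j).Nonempty
            rcases this with h' | h' | h'
            · rw [h', inter_self]; exact h2 i hi
            · rw [h']; exact h3 i (by omega)
            · rw [h', inter_comm]; exact h3 j (by omega))
      refine ⟨z, fun i hi u hu => hA.trans ?_⟩
      apply csInf_le
      · exact ⟨0, by rintro r ⟨p, -, q, -, rfl⟩; exact dist_nonneg⟩
      · exact ⟨z, hz, u, mem_iUnion.mpr ⟨⟨i, Nat.lt_succ_of_le hi⟩, hu⟩, rfl⟩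
  · intro ε hε
    obtain ⟨g, hg, -, hfib⟩ := hY ε hε
    refine ⟨fun s => (g s : ℝ), continuous_subtype_val.comp hg, fun s t hst => ?_⟩
    have hst' : g s = g t := Subtype.ext hst
    exact (Metric.dist_le_diam_of_mem Metric.isBounded_of_compactSpace
      (show s ∈ g ⁻¹' {g t} from hst') (show t ∈ g ⁻¹' {g t} from rfl)).trans (hfib _)

end Pool.Agent.P.MP_75c46b_gt.OldWidth
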